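import Pool.Agent.W212.EFF.Lower

/-!
A `t`-cover-free family with more members than points lives on at least `(t+1)^2` points.

The incidence vectors of the members are linearly dependent. A linear dependency is written as
`f = ∑_{A ∈ P} a_A 1_A = ∑_{B ∈ N} b_B 1_B` with positive coefficients and disjoint `P`, `N`. For
`A ∈ P` the packing weight `u_A` of the starting library gives `⟨u_A, f⟩ ≤ ∑ b_B`, and the
Cauchy-Schwarz inequality gives `(t+1)^2 ≤ ⟨u_A, f⟩ ∑_{v ∈ A} 1 / f v`.
-/

set_option autoImplicit false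
set_option linter.unusedSectionVars false

namespace Pool.Agent.U209.CoverFree

open Finset Pool.Agent.W212.EFF

variable {V : Type*} [DecidableEq V]

/-- one half of the estimate -/
lemma half {t : ℕ} (X : Finset V) (P N : Finset (Finset V)) (hP : ∀ A ∈ P, A ⊆ X)
    (hPN : ∀ A ∈ P, A ∉ N) (a b : Finset V → ℝ) (ha : ∀ A ∈ P, 0 < a A) (hb : ∀ B ∈ N, 0 ≤ b B)
    (hab : ∀ v ∈ X, ∑ A ∈ P.filter (fun A => v ∈ A), a A =
      ∑ B ∈ N.filter (fun B => v ∈ B), b B)
    (u : Finset V → V → ℝ) (hu0 : ∀ A ∈ P, ∀ v, 0 ≤ u A v)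
    (hu1 : ∀ A ∈ P, ∀ B ∈ N, B ≠ A → ∑ v ∈ B ∩ A, u A v ≤ 1)
    (hu2 : ∀ A ∈ P, (t + 1 : ℝ) ≤ ∑ v ∈ A, Real.sqrt (u A v)) :
    (t + 1 : ℝ) ^ 2 * ∑ A ∈ P, a A ≤ X.card * ∑ B ∈ N, b B := by
  classical
  set f : V → ℝ := fun v => ∑ A ∈ P.filter (fun A => v ∈ A), a A with hf
  have hfpos : ∀ A ∈ P, ∀ v ∈ A, 0 < f v := by
    intro A hA v hv
    refine lt_of_lt_of_le (ha A hA) ?_
    exact Finset.single_le_sum (f := a)
      (fun B hB => (ha B (Finset.mem_filter.1 hB).1).le) (Finset.mem_filter.2 ⟨hA, hv⟩)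
  have hf0 : ∀ v, 0 ≤ f v := fun v => Finset.sum_nonneg fun B hB => (ha B (Finset.mem_filter.1 hB).1).le
  have hstep : ∀ A ∈ P, (t + 1 : ℝ) ^ 2 ≤ (∑ B ∈ N, b B) * ∑ v ∈ A, 1 / f v := by
    intro A hA
    have hCS : (∑ v ∈ A, Real.sqrt (u A v)) ^ 2 ≤
        (∑ v ∈ A, u A v * f v) * ∑ v ∈ A, 1 / f v := by
      apply Finset.sum_sq_le_sum_mul_sum_of_sq_le_mul
      · intro v hv
        exact mul_nonneg (hu0 A hA v) (hfpos A hA v hv).le
      · intro v hv
        exact (one_div_pos.2 (hfpos A hA v hv)).le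
      · intro v hv
        rw [Real.sq_sqrt (hu0 A hA v)]
        have := (hfpos A hA v hv).ne'
        apply le_of_eq
        field_simp
    have h2 : (t + 1 : ℝ) ^ 2 ≤ (∑ v ∈ A, Real.sqrt (u A v)) ^ 2 :=
      pow_le_pow_left₀ (by positivity) (hu2 A hA) 2
    have h3 : ∑ v ∈ A, u A v * f v ≤ ∑ B ∈ N, b B := by
      have h4 : ∑ v ∈ A, u A v * f v = ∑ v ∈ A, ∑ B ∈ N, if v ∈ B then b B * u A v else 0 := by
        apply Finset.sum_congr rfl
        intro v hv
        rw [hf]
        simp only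
        rw [hab v (hP A hA hv), Finset.mul_sum, Finset.sum_filter]
        apply Finset.sum_congr rfl
        intro B _
        split_ifs
        · ring
        · rfl
      rw [h4, Finset.sum_comm]
      apply Finset.sum_le_sum
      intro B hB
      rw [← Finset.sum_filter, Finset.filter_mem_eq_inter, ← Finset.mul_sum, Finset.inter_comm]
      have hne : B ≠ A := by
        rintro rfl
        exact hPN B hA hB
      calc b B * ∑ v ∈ B ∩ A, u A v ≤ b B * 1 :=
            mul_le_mul_of_nonneg_left (hu1 A hA B hB hne) (hb B hB)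
        _ = b B := mul_one _
    calc (t + 1 : ℝ) ^ 2 ≤ _ := h2
      _ ≤ _ := hCS
      _ ≤ (∑ B ∈ N, b B) * ∑ v ∈ A, 1 / f v :=
        mul_le_mul_of_nonneg_right h3 (Finset.sum_nonneg fun v hv =>
          (one_div_pos.2 (hfpos A hA v hv)).le)
  have hN0 : 0 ≤ ∑ B ∈ N, b B := Finset.sum_nonneg hb
  have hsum : ∑ A ∈ P, a A * ∑ v ∈ A, 1 / f v ≤ X.card := by
    have h1 : ∑ A ∈ P, a A * ∑ v ∈ A, 1 / f v =
        ∑ v ∈ X, ∑ A ∈ P, if v ∈ A then a A * (1 / f v) else 0 := by
      rw [Finset.sum_comm]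
      apply Finset.sum_congr rfl
      intro A hA
      rw [Finset.mul_sum, ← Finset.sum_filter, Finset.filter_mem_eq_inter,
        Finset.inter_eq_right.2 (hP A hA)]
    rw [h1]
    calc ∑ v ∈ X, ∑ A ∈ P, (if v ∈ A then a A * (1 / f v) else 0) ≤ ∑ v ∈ X, (1 : ℝ) := by
          apply Finset.sum_le_sum
          intro v _
          rw [← Finset.sum_filter, ← Finset.sum_mul]
          change f v * (1 / f v) ≤ 1
          rw [mul_one_div]
          exact div_self_le_one _
      _ = X.card := by simp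
  calc (t + 1 : ℝ) ^ 2 * ∑ A ∈ P, a A = ∑ A ∈ P, a A * (t + 1 : ℝ) ^ 2 := by
        rw [Finset.mul_sum]
        exact Finset.sum_congr rfl fun A _ => mul_comm _ _
    _ ≤ ∑ A ∈ P, a A * ((∑ B ∈ N, b B) * ∑ v ∈ A, 1 / f v) :=
        Finset.sum_le_sum fun A hA => mul_le_mul_of_nonneg_left (hstep A hA) (ha A hA).le
    _ = (∑ B ∈ N, b B) * ∑ A ∈ P, a A * ∑ v ∈ A, 1 / f v := by
        rw [Finset.mul_sum]
        exact Finset.sum_congr rfl fun A _ => by ring
    _ ≤ (∑ B ∈ N, b B) * X.card := mul_le_mul_of_nonneg_left hsum hN0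
    _ = X.card * ∑ B ∈ N, b B := mul_comm _ _

/-- linear dependency of the incidence vectors -/
lemma dependency (X : Finset V) (F : Finset (Finset V)) (hlt : X.card < F.card) :
    ∃ w : Finset V → ℝ, (∃ A ∈ F, w A ≠ 0) ∧
      ∀ v ∈ X, ∑ A ∈ F.filter (fun A => v ∈ A), w A = 0 := by
  classical
  let φ : (↥F → ℝ) →ₗ[ℝ] (↥X → ℝ) :=
    { toFun := fun z v => ∑ B : ↥F, if v.1 ∈ B.1 then z B else 0
      map_add' := by
        intro x y
        funext v
        simp only [Pi.add_apply]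
        rw [← Finset.sum_add_distrib]
        apply Finset.sum_congr rfl
        intro B _
        split_ifs <;> simp
      map_smul' := by
        intro c x
        funext v
        simp only [Pi.smul_apply, smul_eq_mul, RingHom.id_apply]
        rw [Finset.mul_sum]
        apply Finset.sum_congr rfl
        intro B _
        split_ifs <;> simp }
  have hker : LinearMap.ker φ ≠ ⊥ := by
    apply LinearMap.ker_ne_bot_of_finrank_lt
    simp only [Module.finrank_fintype_fun_eq_card, Fintype.card_coe]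
    exact hlt
  obtain ⟨z, hz, hz0⟩ := Submodule.exists_mem_ne_zero_of_ne_bot hker
  refine ⟨fun A => if h : A ∈ F then z ⟨A, h⟩ else 0, ?_, ?_⟩
  · by_contra hcon
    push Not at hcon
    apply hz0
    funext ⟨A, hA⟩
    have := hcon A hA
    simp only [hA, dif_pos] at this
    exact this
  · intro v hv
    have h1 : φ z ⟨v, hv⟩ = 0 := by
      rw [LinearMap.mem_ker.1 hz]
      rfl
    have h2 : φ z ⟨v, hv⟩ = ∑ B : ↥F, if v ∈ B.1 then z B else 0 := rfl
    rw [h2] at h1
    rw [Finset.sum_filter, ← Finset.sum_coe_sort]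
    refine (Finset.sum_congr rfl ?_).trans h1
    intro B _
    simp only [B.2, dif_pos]

/-- the bound in the presence of packings -/
theorem bound {t : ℕ} (X : Finset V) (F : Finset (Finset V)) (hX : ∀ A ∈ F, A ⊆ X)
    (u : Finset V → V → ℝ) (hu0 : ∀ A ∈ F, ∀ v, 0 ≤ u A v)
    (hu1 : ∀ A ∈ F, ∀ B ∈ F, B ≠ A → ∑ v ∈ B ∩ A, u A v ≤ 1)
    (hu2 : ∀ A ∈ F, (t + 1 : ℝ) ≤ ∑ v ∈ A, Real.sqrt (u A v)) (hlt : X.card < F.card) :
    (t + 1) ^ 2 ≤ X.card := by
  classical
  obtain ⟨w, ⟨A0, hA0, hw0⟩, hw⟩ := dependency X F hlt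
  set P := F.filter (fun A => 0 < w A) with hP
  set N := F.filter (fun A => w A < 0) with hN
  have hPF : ∀ A ∈ P, A ∈ F := fun A hA => (Finset.mem_filter.1 hA).1
  have hNF : ∀ A ∈ N, A ∈ F := fun A hA => (Finset.mem_filter.1 hA).1
  have hPw : ∀ A ∈ P, 0 < w A := fun A hA => (Finset.mem_filter.1 hA).2
  have hNw : ∀ A ∈ N, 0 < - w A := fun A hA => neg_pos.2 (Finset.mem_filter.1 hA).2
  have hPN : ∀ A ∈ P, A ∉ N := fun A hA hA' => by
    have h1 := hPw A hA
    have h2 := hNw A hA'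
    linarith
  have hsplit : ∀ v ∈ X, ∑ A ∈ P.filter (fun A => v ∈ A), w A =
      ∑ B ∈ N.filter (fun B => v ∈ B), - w B := by
    intro v hv
    have h1 := hw v hv
    rw [Finset.sum_filter] at h1
    rw [Finset.sum_filter (fun A => v ∈ A) w, Finset.sum_filter (fun B => v ∈ B) (fun B => - w B),
      hP, hN, Finset.sum_filter, Finset.sum_filter]
    have h2 : ∀ A ∈ F, (if 0 < w A then (if v ∈ A then w A else 0) else 0) -
        (if w A < 0 then (if v ∈ A then - w A else 0) else 0) = if v ∈ A then w A else 0 := by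
      intro A _
      split_ifs with h3 h4 h5 h6
      · linarith
      · ring
      · linarith
      · ring
      · ring
      · ring
      · linarith
      · ring
    have h3 := Finset.sum_congr rfl h2
    rw [Finset.sum_sub_distrib, h1] at h3
    linarith
  have e1 := half (t := t) X P N (fun A hA => hX A (hPF A hA)) hPN w (fun A => - w A)
    hPw (fun B hB => (hNw B hB).le) hsplit u (fun A hA => hu0 A (hPF A hA))
    (fun A hA B hB => hu1 A (hPF A hA) B (hNF B hB)) (fun A hA => hu2 A (hPF A hA))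
  have e2 := half (t := t) X N P (fun A hA => hX A (hNF A hA)) (fun A hA hA' => hPN A hA' hA)
    (fun A => - w A) w hNw (fun B hB => (hPw B hB).le) (fun v hv => (hsplit v hv).symm) u
    (fun A hA => hu0 A (hNF A hA))
    (fun A hA B hB => hu1 A (hNF A hA) B (hPF B hB)) (fun A hA => hu2 A (hNF A hA))
  set p := ∑ A ∈ P, w A with hp
  set q := ∑ A ∈ N, - w A with hq
  have hp0 : 0 ≤ p := Finset.sum_nonneg fun A hA => (hPw A hA).le
  have hq0 : 0 ≤ q := Finset.sum_nonneg fun A hA => (hNw A hA).le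
  have hpos : 0 < p + q := by
    rcases lt_or_gt_of_ne hw0 with h | h
    · have : A0 ∈ N := Finset.mem_filter.2 ⟨hA0, h⟩
      have h1 : - w A0 ≤ q := Finset.single_le_sum (f := fun A => - w A)
        (fun A hA => (hNw A hA).le) this
      linarith
    · have : A0 ∈ P := Finset.mem_filter.2 ⟨hA0, h⟩
      have h1 : w A0 ≤ p := Finset.single_le_sum (f := w) (fun A hA => (hPw A hA).le) this
      linarith
  have hfin : (t + 1 : ℝ) ^ 2 * (p + q) ≤ X.card * (p + q) := by nlinarith
  have := le_of_mul_le_mul_right hfin hpos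
  exact_mod_cast this

/-- **Erdős, Frankl, Füredi**: a `t`-cover-free family with more members than points lives on at
least `(t + 1)^2` points. -/
theorem sq_le {t : ℕ} : ∀ (n : ℕ) (X : Finset V), X.card ≤ n →
    ∀ F : Finset (Finset V), (∀ A ∈ F, A ⊆ X) →
    (∀ A ∈ F, ∀ G ⊆ F.erase A, G.card ≤ t → ¬ A ⊆ G.sup id) → X.card < F.card →
    (t + 1) ^ 2 ≤ X.card := by
  classical
  intro n
  induction n with
  | zero =>
    intro X hX F hF hcf hlt
    exfalso
    have hX0 : X = ∅ := Finset.card_eq_zero.1 (Nat.le_zero.1 hX)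
    subst hX0
    obtain ⟨A, hA⟩ := Finset.card_pos.1 (lt_of_le_of_lt (Nat.zero_le _) hlt)
    apply hcf A hA ∅ (Finset.empty_subset _) (by simp)
    exact (hF A hA).trans (Finset.empty_subset _)
  | succ n ih =>
    intro X hX F hF hcf hlt
    by_cases hpriv : ∀ A ∈ F, ∀ x ∈ A, ∃ A' ∈ F, A' ≠ A ∧ x ∈ A'
    · have hpack : ∀ A ∈ F, ∃ u : V → ℝ, (∀ v, 0 ≤ u v) ∧
          (∀ A' ∈ F, A' ≠ A → ∑ v ∈ A' ∩ A, u v ≤ 1) ∧
          (t + 1 : ℝ) ≤ ∑ v ∈ A, Real.sqrt (u v) := by
        intro A hA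
        have hne : A.Nonempty := by
          rw [Finset.nonempty_iff_ne_empty]
          intro hA0
          apply hcf A hA ∅ (Finset.empty_subset _) (by simp)
          rw [hA0]
          exact Finset.empty_subset _
        obtain ⟨u, hu0, hu1, hu2⟩ := exists_packing (fun i : ↥(F.erase A) => i.1) A (by
          intro v hv
          obtain ⟨A', hA', hne, hvA'⟩ := hpriv A hA v hv
          exact ⟨⟨A', Finset.mem_erase.2 ⟨hne, hA'⟩⟩, hvA'⟩) hne
        refine ⟨u, hu0, ?_, ?_⟩
        · intro A' hA' hne'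
          exact hu1 ⟨A', Finset.mem_erase.2 ⟨hne', hA'⟩⟩
        · refine le_trans ?_ hu2
          have h1 : t + 1 ≤ Y (face (Finset.univ : Finset ↥(F.erase A)) (fun i => i.1)) A := by
            by_contra hlt'
            push Not at hlt'
            obtain ⟨G, hG, hGc, hGs⟩ := cov_family (hpriv A hA) (Finset.Subset.refl A)
              (Y_spec (face_cpx _ _) A)
            exact hcf A hA G hG (by omega) hGs
          exact_mod_cast h1
      choose! u hu0 hu1 hu2 using hpack
      exact bound X F hF u hu0 hu1 hu2 hlt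
    · push Not at hpriv
      obtain ⟨A, hA, x, hxA, hx⟩ := hpriv
      have hxX : x ∈ X := hF A hA hxA
      have hX1 : 1 ≤ X.card := Finset.card_pos.2 ⟨x, hxX⟩
      have hF1 : 1 ≤ F.card := Finset.card_pos.2 ⟨A, hA⟩
      have := ih (X.erase x) (by rw [Finset.card_erase_of_mem hxX]; omega) (F.erase A) (by
        intro B hB
        have hB' := Finset.mem_erase.1 hB
        intro y hy
        refine Finset.mem_erase.2 ⟨fun hc => ?_, hF B hB'.2 hy⟩
        subst hc
        exact hx B hB'.2 hB'.1 hy) (by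
        intro B hB G hG hGc
        have hB' := Finset.mem_erase.1 hB
        apply hcf B hB'.2 G _ hGc
        intro Z hZ
        have := Finset.mem_erase.1 (hG hZ)
        exact Finset.mem_erase.2 ⟨this.1, Finset.mem_of_mem_erase this.2⟩) (by
        rw [Finset.card_erase_of_mem hxX, Finset.card_erase_of_mem hA]
        omega)
      rw [Finset.card_erase_of_mem hxX] at this
      omega

end Pool.Agent.U209.CoverFree
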